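import Mathlib

set_option autoImplicit false
open MeasureTheory Real Filter

namespace Pool.Agent.H.MP_d643ae_pr

noncomputable def hh (x : ℝ) : ℝ := 2 + cos (2 * π * x)
noncomputable def f0 (x : ℝ) : ℝ := exp (-(1 / 2) * x ^ 2) * hh x
noncomputable def GG (u : ℝ) : ℝ := if u = -1 then 1 else |u - 2 * ⌊u⌋ - 1| * exp (-6 * (⌊u⌋ + 1 / 2) ^ 2)
noncomputable def g0 (u : ℝ) : ℝ := GG u * exp (3 / 2 * u ^ 2)

theorem hh_b (x : ℝ) : 1 ≤ hh x ∧ hh x ≤ 3 := by
  have := neg_one_le_cos (2 * π * x)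
  have := cos_le_one (2 * π * x)
  unfold hh; constructor <;> linarith

theorem f0_c : Continuous f0 := by unfold f0 hh; fun_prop
theorem f0_pos (x : ℝ) : 0 < f0 x := mul_pos (exp_pos _) (by linarith [(hh_b x).1])
theorem f0_le (x : ℝ) : f0 x ≤ 3 * exp (-(1 / 2) * x ^ 2) := by
  rw [mul_comm]; exact mul_le_mul_of_nonneg_left (hh_b x).2 (exp_pos _).le
theorem f0_le' (x : ℝ) : f0 x ≤ 3 := by
  have := exp_le_one_iff.mpr (show -(1 / 2) * x ^ 2 ≤ 0 by nlinarith)
  linarith [f0_le x]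
theorem f0_i : Integrable f0 :=
  ((integrable_exp_neg_mul_sq (by norm_num : (0 : ℝ) < 1 / 2)).const_mul 3).mono' f0_c.aestronglyMeasurable
    (Eventually.of_forall fun x => by rw [norm_of_nonneg (f0_pos x).le]; exact f0_le x)

theorem g0_m : Measurable g0 := by
  have : Measurable fun u : ℝ => (⌊u⌋ : ℝ) := (measurable_of_countable _).comp Int.measurable_floor
  unfold g0 GG
  exact (Measurable.ite (measurableSet_singleton _) measurable_const (by fun_prop)).mul (by fun_prop)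

theorem g0_pos (u : ℝ) : 0 < g0 u := by
  refine mul_pos ?_ (exp_pos _)
  unfold GG
  split_ifs with h
  · exact one_pos
  refine mul_pos (abs_pos.mpr fun e => h ?_) (exp_pos _)
  have e1 : u = ((2 * ⌊u⌋ + 1 : ℤ) : ℝ) := by push_cast; linarith
  have e2 := congrArg Int.floor e1
  rw [Int.floor_intCast] at e2
  rw [e1, show ⌊u⌋ = -1 by omega]
  norm_num

theorem g0_le (u : ℝ) : g0 u ≤ exp 3 * exp (-1 * u ^ 2) := by
  rw [← exp_add, g0, GG]
  split_ifs with h
  · rw [one_mul, h]; exact exp_le_exp.mpr (by norm_num)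
  have a := Int.floor_le u
  have b := Int.lt_floor_add_one u
  generalize (⌊u⌋ : ℝ) = k at *
  have c : |u - 2 * k - 1| ≤ exp ((k + 1 / 2) ^ 2) :=
    le_trans (abs_le.mpr ⟨by nlinarith [sq_nonneg k], by nlinarith [sq_nonneg (k + 1)]⟩) (add_one_le_exp _)
  refine (mul_le_mul_of_nonneg_right (mul_le_mul_of_nonneg_right c (exp_pos _).le) (exp_pos _).le).trans ?_
  rw [← exp_add, ← exp_add]
  exact exp_le_exp.mpr (by nlinarith [sq_nonneg (2 * k + 1 - u), mul_nonneg (sub_nonneg.2 a) (sub_pos.2 b).le])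

theorem g0_i : Integrable g0 :=
  ((integrable_exp_neg_mul_sq one_pos).const_mul _).mono' g0_m.aestronglyMeasurable
    (Eventually.of_forall fun x => by rw [norm_of_nonneg (g0_pos x).le]; exact g0_le x)

theorem int0 (x : Fin 3 → ℝ) : Integrable fun u => u * g0 u * ∏ j, f0 (x j - u) := by
  refine (((integrable_mul_exp_neg_mul_sq one_pos).norm).const_mul (exp 3 * 3 ^ 3)).mono'
    ((measurable_id.mul g0_m).mul (Finset.measurable_prod _ fun j _ =>
      f0_c.measurable.comp (by fun_prop))).aestronglyMeasurable (Eventually.of_forall fun u => ?_)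
  have a : ∏ j, f0 (x j - u) ≤ 3 ^ 3 := by
    simpa using Finset.prod_le_prod (s := Finset.univ) (fun j _ => (f0_pos (x j - u)).le) fun j _ => f0_le' _
  rw [norm_mul, norm_mul, norm_mul, norm_of_nonneg (g0_pos u).le, norm_of_nonneg (exp_pos _).le,
    norm_of_nonneg (Finset.prod_nonneg fun j _ => (f0_pos _).le)]
  calc _ ≤ ‖u‖ * (exp 3 * exp (-1 * u ^ 2)) * 3 ^ 3 := by
        gcongr
        · exact Finset.prod_nonneg fun j _ => (f0_pos _).le
        · exact g0_le u
    _ = _ := by ring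

theorem zero (x : Fin 3 → ℝ) (hx : ∑ j, x j = 0) : ∫ u, u * g0 u * ∏ j, f0 (x j - u) = 0 := by
  have h := (int0 x).hasSum_intervalIntegral_comp_add_int
  have e : ∀ (n : ℤ), ∀ t ∈ Set.Ioo (0 : ℝ) 1, (t + n) * g0 (t + n) * ∏ j, f0 (x j - (t + n)) =
      (t + n) * |t - n - 1| * exp (-6 * (n + 1 / 2) ^ 2) *
        (exp (-(1 / 2) * ∑ j, x j ^ 2) * ∏ j, hh (x j - t)) := fun n t ht => by
    have fl : ⌊t + n⌋ = n := by rw [Int.floor_add_intCast, Int.floor_eq_zero_iff.mpr ⟨ht.1.le, ht.2⟩, zero_add]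
    have ne : t + n ≠ -1 := fun h => by
      have : ⌊t + n⌋ = -1 := by rw [h, Int.floor_eq_iff]; norm_num
      rw [fl] at this
      rw [this] at h
      simp at h
      exact ht.1.ne' h
    have p : ∀ y, hh (y - (t + n)) = hh (y - t) := fun y => by
      rw [hh, hh, ← cos_add_int_mul_two_pi _ n]; congr 2; ring
    have q : exp (3 / 2 * (t + n) ^ 2) * ∏ j, exp (-(1 / 2) * (x j - (t + n)) ^ 2) =
        exp (-(1 / 2) * ∑ j, x j ^ 2) := by
      rw [← exp_sum, ← exp_add]
      simp only [Fin.sum_univ_three] at hx ⊢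
      congr 1
      linear_combination (t + n) * hx
    simp only [g0, GG, if_neg ne, fl, f0, p, Finset.prod_mul_distrib, ← q]
    rw [show t + n - 2 * n - 1 = t - n - 1 by ring]
    ring
  have h2 := (Equiv.hasSum_iff (f := fun n : ℤ => ∫ t in (0 : ℝ)..1, (t + n) * g0 (t + n) *
    ∏ j, f0 (x j - (t + n))) (Equiv.subLeft (-1 : ℤ))).mpr h
  have h3 := h.neg
  have := h2.unique (HasSum.congr_fun h3 fun n => ?_)
  · linarith
  simp only [Function.comp, Equiv.subLeft_apply, intervalIntegral.integral_of_le zero_le_one,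
    integral_Ioc_eq_integral_Ioo, ← integral_neg]
  refine setIntegral_congr_fun measurableSet_Ioo fun t ht => ?_
  simp only [e _ t ht]
  push_cast
  have : (t + (-1 - n)) * |t - (-1 - n) - 1| = -((t + n) * |t - n - 1|) := by
    rw [show t - (-1 - n) - 1 = t + n by ring]
    rcases le_or_gt 0 n with h | h
    · have : (0 : ℝ) ≤ n := by exact_mod_cast h
      rw [abs_of_nonneg (by linarith [ht.1]), abs_of_nonpos (by linarith [ht.2])]; ring
    · have : (n : ℝ) ≤ -1 := by exact_mod_cast (by omega : n ≤ -1)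
      rw [abs_of_nonpos (by linarith [ht.2]), abs_of_nonneg (by linarith [ht.1])]; ring
  rw [this, show (-1 - n + 1 / 2 : ℝ) ^ 2 = (n + 1 / 2) ^ 2 by ring]
  ring

theorem notn {c d a s : ℝ} (hc : 0 < c)
    (h : (fun x => c * f0 x) =ᵐ[volume] fun x => d * exp (-(x - a) ^ 2 / s)) : False := by
  have e := congrFun ((Continuous.ae_eq_iff_eq volume (continuous_const.mul f0_c) (by fun_prop)).mp h)
  have k : ∀ x, (d * exp (-(x - a) ^ 2 / s)) ^ 2 * exp (-(1 / 2) / s) =
      d * exp (-(x + 1 / 2 - a) ^ 2 / s) * (d * exp (-(x - 1 / 2 - a) ^ 2 / s)) := fun x => by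
    rw [mul_pow, sq (exp _), mul_mul_mul_comm, ← exp_add, ← exp_add, mul_assoc, ← exp_add, sq]
    congr 2; ring
  have k2 : ∀ x, hh x ^ 2 * exp (-(1 / 2) / s) = hh (x + 1 / 2) * hh (x - 1 / 2) * exp (-(1 / 4)) := fun x => by
    have := k x
    simp only [← e, Pi.mul_apply, f0] at this
    have z : exp (-(1 / 2) * (x + 1 / 2) ^ 2) * exp (-(1 / 2) * (x - 1 / 2) ^ 2) =
        exp (-(1 / 2) * x ^ 2) ^ 2 * exp (-(1 / 4)) := by
      rw [sq (exp _), ← exp_add, ← exp_add, ← exp_add]; congr 1; ring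
    refine mul_left_cancel₀ (a := (c * exp (-(1 / 2) * x ^ 2)) ^ 2) (by positivity) ?_
    linear_combination this + c ^ 2 * hh (x + 1 / 2) * hh (x - 1 / 2) * z
  have a0 := k2 0
  have a1 := k2 (1 / 2)
  have v0 : hh 0 = 3 := by simp [hh]; norm_num
  have v1 : hh (1 / 2) = 1 := by rw [hh, show 2 * π * (1 / 2) = π by ring, cos_pi]; norm_num
  have v2 : hh (-(1 / 2)) = 1 := by rw [hh, show 2 * π * -(1 / 2) = -π by ring, cos_neg, cos_pi]; norm_num
  have v3 : hh 1 = 3 := by rw [hh, mul_one, cos_two_pi]; norm_num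
  rw [zero_add, zero_sub, v0, v1, v2] at a0
  rw [add_halves, sub_self, v0, v1, v3] at a1
  linarith [exp_pos (-(1 / 4))]

end Pool.Agent.H.MP_d643ae_pr
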